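import Pool.Agent.Helper14D.Stm

/-!
# The combinatorial identities of Part 1 (helper89)
-/

set_option autoImplicit false

open Finset

namespace Pool.Agent.H89B.VD

open Pool.Agent.Helper14D

theorem alt (N : ℕ) (Q : Polynomial ℤ) (h : Q.natDegree < N) :
    ∑ m ∈ range (N + 1), (-1 : ℤ) ^ m * (N.choose m) * Q.eval (m : ℤ) = 0 := by
  have h1 := congrFun (Polynomial.fwdDiff_iter_eq_zero_of_degree_lt h) 0
  rw [fwdDiff_iter_eq_sum_shift] at h1
  have h2 : ∑ m ∈ range (N + 1), (-1 : ℤ) ^ m * (N.choose m) * Q.eval (m : ℤ) = (-1) ^ N *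
      ∑ k ∈ range (N + 1), ((-1 : ℤ) ^ (N - k) * N.choose k) • Q.eval (0 + k • 1) := by
    rw [mul_sum]
    apply sum_congr rfl
    intro k hk
    have hk' : k ≤ N := by
      have := mem_range.1 hk
      omega
    obtain ⟨j, rfl⟩ := Nat.exists_eq_add_of_le hk'
    have e1 : (-1 : ℤ) ^ (k + j) * (-1) ^ (k + j - k) = (-1) ^ k := by
      rw [Nat.add_sub_cancel_left, pow_add, mul_assoc, ← mul_pow]
      simp
    simp only [smul_eq_mul, zero_add, nsmul_eq_mul, mul_one]
    rw [← e1]
    ring
  rw [h2, h1]
  simp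

theorem cnt {α : Type} [Fintype α] [DecidableEq α] (P S' T' : Finset α) (hS : S' ⊆ P) (hT : T' ⊆ P)
    (hd : Disjoint S' T') (m : ℕ) (hs : S'.card ≤ m) (ht : T'.card ≤ m) :
    (univ.filter (fun x : Finset α × Finset α => Disjoint x.1 x.2 ∧ x.1.card = m ∧ x.2.card = m ∧
      x.1 ∩ P = S' ∧ x.2 ∩ P = T')).card =
      (Pᶜ.card.choose (m - S'.card)) * ((Pᶜ.card - (m - S'.card)).choose (m - T'.card)) := by
  have hB : ((powersetCard (m - S'.card) Pᶜ).sigma
      (fun A => powersetCard (m - T'.card) (Pᶜ \ A))).card =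
      (Pᶜ.card.choose (m - S'.card)) * ((Pᶜ.card - (m - S'.card)).choose (m - T'.card)) := by
    rw [card_sigma, sum_congr rfl
      (g := fun _ => (Pᶜ.card - (m - S'.card)).choose (m - T'.card)), sum_const,
      card_powersetCard, smul_eq_mul]
    intro A hA
    rw [mem_powersetCard] at hA
    rw [card_powersetCard, card_sdiff_of_subset hA.1, hA.2]
  rw [← hB]
  have hdec : ∀ A : Finset α, A = (A ∩ P) ∪ (A \ P) := fun A => by rw [union_comm, sdiff_union_inter]
  refine card_nbij' (fun x => ⟨x.1 \ P, x.2 \ P⟩) (fun y => (S' ∪ y.1, T' ∪ y.2)) ?_ ?_ ?_ ?_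
  · rintro ⟨A, B⟩ hx
    simp only [coe_filter, mem_univ, true_and, Set.mem_ofPred_eq] at hx
    obtain ⟨h1, h2, h3, h4, h5⟩ := hx
    simp only [coe_sigma, Set.mem_sigma_iff, mem_coe, mem_powersetCard]
    refine ⟨⟨?_, ?_⟩, ?_, ?_⟩
    · intro x hx
      rw [mem_compl]
      exact (mem_sdiff.1 hx).2
    · have := card_inter_add_card_sdiff A P
      rw [h4, h2] at this
      omega
    · intro x hx
      rw [mem_sdiff, mem_compl]
      refine ⟨(mem_sdiff.1 hx).2, fun h => ?_⟩
      exact (disjoint_left.1 h1) (mem_sdiff.1 h).1 (mem_sdiff.1 hx).1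
    · have := card_inter_add_card_sdiff B P
      rw [h5, h3] at this
      omega
  · rintro ⟨A, B⟩ hy
    simp only [coe_sigma, Set.mem_sigma_iff, mem_coe, mem_powersetCard] at hy
    obtain ⟨⟨h1, h2⟩, h3, h4⟩ := hy
    have hA : ∀ x ∈ A, x ∉ P := fun x hx => mem_compl.1 (h1 hx)
    have hBP : ∀ x ∈ B, x ∉ P ∧ x ∉ A := fun x hx => by
      have := h3 hx
      rw [mem_sdiff, mem_compl] at this
      exact this
    simp only [coe_filter, mem_univ, true_and, Set.mem_ofPred_eq]
    refine ⟨?_, ?_, ?_, ?_, ?_⟩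
    · rw [disjoint_left]
      intro x hx hx'
      rcases mem_union.1 hx with h | h <;> rcases mem_union.1 hx' with h' | h'
      · exact (disjoint_left.1 hd) h h'
      · exact (hBP x h').1 (hS h)
      · exact hA x h (hT h')
      · exact (hBP x h').2 h
    · rw [card_union_of_disjoint, h2]
      · omega
      · rw [disjoint_left]
        exact fun x hx hx' => hA x hx' (hS hx)
    · rw [card_union_of_disjoint, h4]
      · omega
      · rw [disjoint_left]
        exact fun x hx hx' => (hBP x hx').1 (hT hx)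
    · ext x
      rw [mem_inter, mem_union]
      constructor
      · rintro ⟨h | h, h'⟩
        · exact h
        · exact absurd h' (hA x h)
      · exact fun h => ⟨Or.inl h, hS h⟩
    · ext x
      rw [mem_inter, mem_union]
      constructor
      · rintro ⟨h | h, h'⟩
        · exact h
        · exact absurd h' (hBP x h).1
      · exact fun h => ⟨Or.inl h, hT h⟩
  · rintro ⟨A, B⟩ hx
    simp only [coe_filter, mem_univ, true_and, Set.mem_ofPred_eq] at hx
    obtain ⟨h1, h2, h3, h4, h5⟩ := hx
    simp only [Prod.mk.injEq]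
    rw [← h4, ← h5]
    exact ⟨(hdec A).symm, (hdec B).symm⟩
  · rintro ⟨A, B⟩ hy
    simp only [coe_sigma, Set.mem_sigma_iff, mem_coe, mem_powersetCard] at hy
    obtain ⟨⟨h1, h2⟩, h3, h4⟩ := hy
    have hA : ∀ x ∈ A, x ∉ P := fun x hx => mem_compl.1 (h1 hx)
    have hBP : ∀ x ∈ B, x ∉ P ∧ x ∉ A := fun x hx => by
      have := h3 hx
      rw [mem_sdiff, mem_compl] at this
      exact this
    have e1 : (S' ∪ A) \ P = A := by
      ext x
      rw [mem_sdiff, mem_union]
      constructor
      · rintro ⟨h | h, h'⟩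
        · exact absurd (hS h) h'
        · exact h
      · exact fun h => ⟨Or.inr h, hA x h⟩
    have e2 : (T' ∪ B) \ P = B := by
      ext x
      rw [mem_sdiff, mem_union]
      constructor
      · rintro ⟨h | h, h'⟩
        · exact absurd (hT h) h'
        · exact h
      · exact fun h => ⟨Or.inr h, (hBP x h).1⟩
    simp only [e1, e2]

theorem pen_le (N : ℕ) (t : Pen N) : t.1.1.card ≤ N := by
  have h1 := card_union_of_disjoint t.2.1
  have h2 := card_le_univ (t.1.1 ∪ t.1.2)
  rw [Fintype.card_fin, h1, ← t.2.2.1] at h2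
  omega

theorem pen_card (N : ℕ) (P S' T' : Finset (Fin (2 * N))) (hS : S' ⊆ P) (hT : T' ⊆ P)
    (hd : Disjoint S' T') (m : ℕ) (hm : 0 < m) (hs : S'.card ≤ m) (ht : T'.card ≤ m) :
    (((univ : Finset (Pen N)).filter (fun t => t.1.1 ∩ P = S' ∧ t.1.2 ∩ P = T')).filter
      (fun t => t.1.1.card = m)).card =
      ((2 * N - P.card).choose (m - S'.card)) *
        ((2 * N - P.card - (m - S'.card)).choose (m - T'.card)) := by
  have h := cnt P S' T' hS hT hd m hs ht
  rw [card_compl, Fintype.card_fin] at h
  rw [← h]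
  refine card_bij (fun t _ => t.1) ?_ ?_ ?_
  · intro t ht'
    rw [filter_filter, mem_filter] at ht'
    rw [mem_filter]
    exact ⟨mem_univ _, t.2.1, ht'.2.2, t.2.2.1 ▸ ht'.2.2, ht'.2.1.1, ht'.2.1.2⟩
  · intro t _ t' _ he
    exact Subtype.ext he
  · intro x hx
    rw [mem_filter] at hx
    obtain ⟨-, h1, h2, h3, h4, h5⟩ := hx
    refine ⟨⟨x, h1, by rw [h2, h3], by omega⟩, ?_, rfl⟩
    rw [filter_filter, mem_filter]
    exact ⟨mem_univ _, ⟨h4, h5⟩, h2⟩

theorem cw_pos {N m : ℕ} (hm : 0 < m) : N.choose m * (m.factorial ^ 2 * (2 * N - 2 * m).factorial) / m =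
    N.choose m * (m.factorial * ((m - 1).factorial * (2 * N - 2 * m).factorial)) := by
  have h1 : m.factorial = m * (m - 1).factorial := (Nat.mul_factorial_pred (by omega)).symm
  have h2 : N.choose m * (m.factorial ^ 2 * (2 * N - 2 * m).factorial) =
      m * (N.choose m * (m.factorial * ((m - 1).factorial * (2 * N - 2 * m).factorial))) := by
    rw [sq]
    nth_rewrite 2 [h1]
    ring
  rw [h2, Nat.mul_div_cancel_left _ hm]

theorem key (N m s t : ℕ) (hm : 0 < m) (hmN : m ≤ N) (hs1 : 1 ≤ s) (ht1 : 1 ≤ t) (hst : s + t ≤ N)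
    (hs : s ≤ m) (ht : t ≤ m) :
    (m.factorial * ((m - 1).factorial * (2 * N - 2 * m).factorial)) *
      (N.choose (m - s) * (N - (m - s)).choose (m - t)) =
    N.factorial * (m.descFactorial s * (m - 1).descFactorial (t - 1) *
      (2 * N - 2 * m).descFactorial (N - s - t)) := by
  rcases le_or_gt ((m - s) + (m - t)) N with hab | hab
  · have e1 := Nat.factorial_mul_descFactorial hs
    have e2 := Nat.factorial_mul_descFactorial (show t - 1 ≤ m - 1 by omega)
    have e3 := Nat.factorial_mul_descFactorial (show N - s - t ≤ 2 * N - 2 * m by omega)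
    have e4 := Nat.choose_mul_factorial_mul_factorial (show m - s ≤ N by omega)
    have e5 := Nat.choose_mul_factorial_mul_factorial (show m - t ≤ N - (m - s) by omega)
    rw [show m - 1 - (t - 1) = m - t by omega] at e2
    rw [show 2 * N - 2 * m - (N - s - t) = N - (m - s) - (m - t) by omega] at e3
    rw [← e1, ← e2, ← e3, ← e4, ← e5]
    ring
  · rw [Nat.choose_eq_zero_of_lt (show N - (m - s) < m - t by omega),
      Nat.descFactorial_of_lt (show 2 * N - 2 * m < N - s - t by omega)]
    simp

theorem t_trace : S_trace := by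
  intro N P S' T' hP hS hT hd hS0 hT0
  have hs1 : 1 ≤ S'.card := hS0.card_pos
  have ht1 : 1 ≤ T'.card := hT0.card_pos
  have hst : S'.card + T'.card ≤ N := by
    have h := card_le_card (union_subset hS hT)
    rw [card_union_of_disjoint hd, hP] at h
    exact h
  set s := S'.card with hs
  set t := T'.card with ht
  rw [← sum_fiberwise_of_maps_to (t := range (N + 1)) (g := fun x : Pen N => x.1.1.card)
    (fun x _ => mem_range.2 (by have := pen_le N x; omega))]
  -- the polynomial
  set Q : Polynomial ℤ := descPochhammer ℤ s * ((descPochhammer ℤ (t - 1)).comp (Polynomial.X - 1)) *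
    ((descPochhammer ℤ (N - s - t)).comp (Polynomial.C (2 * N : ℤ) - Polynomial.C 2 * Polynomial.X)) with hQ
  have hdeg : Q.natDegree < N := by
    have h1 : (descPochhammer ℤ s * ((descPochhammer ℤ (t - 1)).comp (Polynomial.X - 1))).natDegree ≤
        s + (t - 1) * 1 := by
      refine (Polynomial.natDegree_mul_le).trans (add_le_add (descPochhammer_natDegree ℤ _).le ?_)
      refine (Polynomial.natDegree_comp_le).trans (Nat.mul_le_mul (descPochhammer_natDegree ℤ _).le ?_)
      have : (Polynomial.X - 1 : Polynomial ℤ) = Polynomial.X - Polynomial.C 1 := by simp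
      rw [this, Polynomial.natDegree_X_sub_C]
    have h2 : ((descPochhammer ℤ (N - s - t)).comp
        (Polynomial.C (2 * N : ℤ) - Polynomial.C 2 * Polynomial.X)).natDegree ≤ (N - s - t) * 1 := by
      refine (Polynomial.natDegree_comp_le).trans (Nat.mul_le_mul (descPochhammer_natDegree ℤ _).le ?_)
      refine (Polynomial.natDegree_sub_le _ _).trans (max_le (by rw [Polynomial.natDegree_C]; omega) ?_)
      exact (Polynomial.natDegree_C_mul_le _ _).trans Polynomial.natDegree_X_le
    have h3 := (Polynomial.natDegree_mul_le (p := descPochhammer ℤ s *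
      ((descPochhammer ℤ (t - 1)).comp (Polynomial.X - 1))) (q := (descPochhammer ℤ (N - s - t)).comp
        (Polynomial.C (2 * N : ℤ) - Polynomial.C 2 * Polynomial.X)))
    rw [← hQ] at h3
    omega
  have hev : ∀ m : ℕ, 0 < m → m ≤ N → Q.eval (m : ℤ) = ((m.descFactorial s *
      (m - 1).descFactorial (t - 1) * (2 * N - 2 * m).descFactorial (N - s - t) : ℕ) : ℤ) := by
    intro m hm hmN
    rw [hQ, Polynomial.eval_mul, Polynomial.eval_mul, Polynomial.eval_comp, Polynomial.eval_comp]
    have e1 : Polynomial.eval (m : ℤ) (Polynomial.X - 1 : Polynomial ℤ) = ((m - 1 : ℕ) : ℤ) := by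
      rw [Nat.cast_sub hm]; simp
    have e2 : Polynomial.eval (m : ℤ) (Polynomial.C (2 * N : ℤ) - Polynomial.C 2 * Polynomial.X) =
        ((2 * N - 2 * m : ℕ) : ℤ) := by
      rw [Nat.cast_sub (by omega)]; simp
    rw [e1, e2, descPochhammer_eval_eq_descFactorial, descPochhammer_eval_eq_descFactorial,
      descPochhammer_eval_eq_descFactorial]
    push_cast
    ring
  have hev0 : Q.eval ((0 : ℕ) : ℤ) = 0 := by
    rw [hQ, Polynomial.eval_mul, Polynomial.eval_mul, Nat.cast_zero,
      descPochhammer_ne_zero_eval_zero ℤ (by omega)]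
    simp
  have hterm : ∀ m ∈ range (N + 1), ∑ x ∈ ((univ : Finset (Pen N)).filter
      (fun t => t.1.1 ∩ P = S' ∧ t.1.2 ∩ P = T')) with x.1.1.card = m, cw N x.1.1.card =
      -(N.factorial : ℤ) * ((-1 : ℤ) ^ m * (N.choose m) * Q.eval (m : ℤ)) := by
    intro m hm
    have hmN : m ≤ N := by
      have := mem_range.1 hm
      omega
    rw [sum_congr rfl (g := fun _ => cw N m) (fun x hx => by rw [(mem_filter.1 hx).2]), sum_const]
    rcases Nat.eq_zero_or_pos m with rfl | hm0
    · rw [hev0]
      simp [cw]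
    · by_cases hsm : s ≤ m ∧ t ≤ m
      · rw [pen_card N P S' T' hS hT hd m hm0 hsm.1 hsm.2, hP, ← hs, ← ht,
          show 2 * N - N = N by omega, hev m hm0 hmN]
        have hk := key N m s t hm0 hmN hs1 ht1 hst hsm.1 hsm.2
        rw [cw, cw_pos hm0]
        obtain ⟨j, rfl⟩ := Nat.exists_eq_add_of_le hm0
        have hk' : (((1 + j).factorial * ((1 + j - 1).factorial *
            (2 * N - 2 * (1 + j)).factorial) * (N.choose (1 + j - s) *
            (N - (1 + j - s)).choose (1 + j - t)) : ℕ) : ℤ) =
            ((N.factorial * ((1 + j).descFactorial s * (1 + j - 1).descFactorial (t - 1) *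
            (2 * N - 2 * (1 + j)).descFactorial (N - s - t)) : ℕ) : ℤ) := by
          exact_mod_cast hk
        have e1 : (-1 : ℤ) ^ (1 + j) = - (-1) ^ j := by rw [pow_add]; ring
        have e2 : 1 + j - 1 = j := by omega
        rw [e1]
        simp only [nsmul_eq_mul]
        rw [e2] at hk' ⊢
        push_cast at hk' ⊢
        linear_combination ((-1 : ℤ) ^ j * (N.choose (1 + j) : ℤ)) * hk'
      · have h0 : (((univ : Finset (Pen N)).filter (fun t => t.1.1 ∩ P = S' ∧ t.1.2 ∩ P = T')).filter
            (fun t => t.1.1.card = m)) = ∅ := by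
          rw [filter_filter, filter_eq_empty_iff]
          rintro x - ⟨⟨h1, h2⟩, h3⟩
          apply hsm
          constructor
          · rw [← h3, hs, ← h1]
            exact card_le_card inter_subset_left
          · rw [← h3, x.2.2.1, ht, ← h2]
            exact card_le_card inter_subset_left
        rw [h0, card_empty, zero_smul, hev m hm0 hmN]
        have : m.descFactorial s * (m - 1).descFactorial (t - 1) = 0 := by
          rcases not_and_or.1 hsm with h | h
          · rw [Nat.descFactorial_of_lt (by omega)]; simp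
          · rw [Nat.descFactorial_of_lt (show m - 1 < t - 1 by omega)]; simp
        rw [this]
        simp
  rw [sum_congr rfl hterm, ← mul_sum, alt N Q hdeg, mul_zero]

theorem t_total : S_total := by
  intro N hN
  rw [← sum_fiberwise_of_maps_to (s := univ) (t := range (N + 1)) (g := fun x : Pen N => x.1.1.card)
    (fun x _ => mem_range.2 (by have := pen_le N x; omega))]
  have hterm : ∀ m ∈ range (N + 1), ∑ x ∈ (univ : Finset (Pen N)) with x.1.1.card = m,
      cw N x.1.1.card * (x.1.1.card : ℤ) =
      -((2 * N).factorial : ℤ) * ((-1 : ℤ) ^ m * (N.choose m) * (Polynomial.C 1).eval (m : ℤ)) +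
        (if m = 0 then ((2 * N).factorial : ℤ) else 0) := by
    intro m hm
    have hmN : m ≤ N := by
      have := mem_range.1 hm
      omega
    rw [sum_congr rfl (g := fun _ => cw N m * (m : ℤ)) (fun x hx => by rw [(mem_filter.1 hx).2]), sum_const]
    rcases Nat.eq_zero_or_pos m with rfl | hm0
    · simp
    · have hc := pen_card N ∅ ∅ ∅ (Subset.refl _) (Subset.refl _) (disjoint_empty_left _) m hm0
        (by simp) (by simp)
      simp only [inter_empty, and_self, filter_true, card_empty, Nat.sub_zero] at hc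
      rw [hc, cw, cw_pos hm0, if_neg (by omega)]
      have e4 := Nat.choose_mul_factorial_mul_factorial (show m ≤ 2 * N by omega)
      have e5 := Nat.choose_mul_factorial_mul_factorial (show m ≤ 2 * N - m by omega)
      rw [show 2 * N - m - m = 2 * N - 2 * m by omega] at e5
      have e6 : m * (m - 1).factorial = m.factorial := Nat.mul_factorial_pred (by omega)
      have hk : (m.factorial * ((m - 1).factorial * (2 * N - 2 * m).factorial)) * m *
          ((2 * N).choose m * (2 * N - m).choose m) = (2 * N).factorial := by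
        rw [← e4, ← e5, ← e6]
        ring
      obtain ⟨j, rfl⟩ := Nat.exists_eq_add_of_le hm0
      have hk' : (((1 + j).factorial * ((1 + j - 1).factorial * (2 * N - 2 * (1 + j)).factorial) * (1 + j) *
          ((2 * N).choose (1 + j) * (2 * N - (1 + j)).choose (1 + j)) : ℕ) : ℤ) =
          ((2 * N).factorial : ℤ) := by
        exact_mod_cast hk
      have e1 : (-1 : ℤ) ^ (1 + j) = - (-1) ^ j := by rw [pow_add]; ring
      have e2 : 1 + j - 1 = j := by omega
      rw [e1]
      simp only [nsmul_eq_mul, Polynomial.eval_C, mul_one, add_zero]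
      rw [e2] at hk' ⊢
      push_cast at hk' ⊢
      linear_combination ((-1 : ℤ) ^ j * (N.choose (1 + j) : ℤ)) * hk'
  rw [sum_congr rfl hterm, sum_add_distrib, ← mul_sum, alt N (Polynomial.C 1) (by simpa using hN)]
  simp

end Pool.Agent.H89B.VD
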